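import Mathlib

set_option autoImplicit false

/-!
A surface generated by a varisolvent function on a finite set is never both connected and closed.
-/

namespace Pool.Agent.Results.MP_850d3d_an.NotClosed

/-- `g` is locally solvent of degree `m` at the parameter `a₀`: for all distinct points
`t 0, …, t (m - 1)` and every `ε > 0` there is `δ > 0` such that all real values `γ i` with
`|g a₀ (t i) - γ i| < δ` are interpolated by some `g a` which is uniformly `ε`-close to `g a₀`. -/
def LocallySolvent {A Q : Type*} (g : A → Q → ℝ) (m : ℕ) (a₀ : A) : Prop :=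
  ∀ t : Fin m → Q, Function.Injective t → ∀ ε : ℝ, 0 < ε → ∃ δ : ℝ, 0 < δ ∧
    ∀ γ : Fin m → ℝ, (∀ i, |g a₀ (t i) - γ i| < δ) →
      ∃ a : A, (∀ i, g a (t i) = γ i) ∧ ∀ q : Q, |g a q - g a₀ q| < ε

/-- `g` is varisolvent: there is a non-constant function `p` on the parameter set with values in
`{1, …, k}`, `k` the number of points of `Q`, such that at every parameter `a₀` the function `g` is
locally solvent of degree `p a₀` and `g a₀ - g a` has at most `p a₀ - 1` zeros for every other
parameter `a`. -/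
def Varisolvent {A Q : Type*} (g : A → Q → ℝ) : Prop :=
  ∃ p : A → ℕ, (∃ a b : A, p a ≠ p b) ∧ (∀ a : A, 1 ≤ p a ∧ p a ≤ Nat.card Q) ∧
    (∀ a₀ : A, LocallySolvent g (p a₀) a₀) ∧
    ∀ a₀ a : A, a ≠ a₀ → {q : Q | g a₀ q - g a q = 0}.ncard ≤ p a₀ - 1

section proof

variable {A Q : Type*} [Fintype Q] {g : A → Q → ℝ} {p : A → ℕ} {m : ℕ}

/-- two different members of the surface that agree at `m - 1` points -/
lemma agree {t : Fin m → Q} (ht : Function.Injective t) (i₀ : Fin m)
    (hz : ∀ a₀ a : A, a ≠ a₀ → {q : Q | g a₀ q - g a q = 0}.ncard ≤ p a₀ - 1)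
    (a₀ a : A) (hne : a ≠ a₀) (hpos : 1 ≤ p a₀) (hlt : p a₀ < m)
    (h : ∀ i, i ≠ i₀ → g a₀ (t i) = g a (t i)) : False := by
  classical
  have h1 := hz a₀ a hne
  have h2 : ((Finset.univ.erase i₀).image t : Set Q) ⊆ {q : Q | g a₀ q - g a q = 0} := by
    intro q hq
    simp only [Finset.coe_image, Set.mem_image, Finset.mem_coe, Finset.mem_erase,
      Finset.mem_univ, and_true] at hq
    obtain ⟨i, hi, rfl⟩ := hq
    simp only [Set.mem_ofPred_eq]
    rw [h i hi, sub_self]
  have h3 := Set.ncard_le_ncard h2 (Set.toFinite _)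
  rw [Set.ncard_coe_finset, Finset.card_image_of_injective _ ht,
    Finset.card_erase_of_mem (Finset.mem_univ _), Finset.card_univ, Fintype.card_fin] at h3
  omega

/-- the members of maximal degree form a relatively open subset of the surface -/
lemma open_max {t : Fin m → Q} (ht : Function.Injective t) (i₀ : Fin m)
    (hpos : ∀ a, 1 ≤ p a) (hmax : ∀ a, p a ≤ m)
    (hs : ∀ a₀ : A, LocallySolvent g (p a₀) a₀)
    (hz : ∀ a₀ a : A, a ≠ a₀ → {q : Q | g a₀ q - g a q = 0}.ncard ≤ p a₀ - 1)
    (a : A) (ha : p a = m) :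
    ∃ δ : ℝ, 0 < δ ∧ ∀ b : A, dist (g b) (g a) < δ → p b = m := by
  have h0 := hs a
  rw [ha] at h0
  obtain ⟨δ, hδ, h1⟩ := h0 t ht 1 one_pos
  refine ⟨δ / 2, by linarith, ?_⟩
  intro b hb
  by_contra hcon
  have hlt : p b < m := lt_of_le_of_ne (hmax b) hcon
  have hb' : ∀ q, |g b q - g a q| < δ / 2 := by
    intro q
    have := (dist_pi_lt_iff (by linarith)).1 hb q
    rwa [Real.dist_eq] at this
  obtain ⟨c, hc1, _⟩ := h1 (fun i => if i = i₀ then g b (t i) + δ / 4 else g b (t i)) (by
    intro i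
    have h2 := hb' (t i)
    rw [abs_lt] at h2 ⊢
    split_ifs
    · constructor <;> linarith [h2.1, h2.2]
    · constructor <;> linarith [h2.1, h2.2])
  have hcb : c ≠ b := by
    intro h
    have h2 := hc1 i₀
    rw [h, if_pos rfl] at h2
    linarith
  apply agree ht i₀ hz b c hcb (hpos b) hlt
  intro i hi
  have h2 := hc1 i
  rw [if_neg hi] at h2
  exact h2.symm

/-- a member of the surface on the boundary of the unit ball about `g b` -/
lemma reach {t : Fin m → Q} (ht : Function.Injective t) (i₀ : Fin m)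
    (hpos : ∀ a, 1 ≤ p a) (hmax : ∀ a, p a ≤ m)
    (hs : ∀ a₀ : A, LocallySolvent g (p a₀) a₀)
    (hz : ∀ a₀ a : A, a ≠ a₀ → {q : Q | g a₀ q - g a q = 0}.ncard ≤ p a₀ - 1)
    (hcl : IsClosed (Set.range g)) (b a : A) (ha : p a = m) (hab : dist (g a) (g b) ≤ 1) :
    ∃ c : A, dist (g c) (g b) = 1 ∧ ∀ i, i ≠ i₀ → g c (t i) = g a (t i) := by
  set K : Set (Q → ℝ) := {z | z ∈ Set.range g ∧ dist z (g b) ≤ 1 ∧
    ∀ i, i ≠ i₀ → z (t i) = g a (t i)} with hK
  have hKc : IsCompact K := by
    apply IsCompact.of_isClosed_subset (isCompact_closedBall (g b) 1)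
    · have e : K = Set.range g ∩ (Metric.closedBall (g b) 1 ∩
          ⋂ i : Fin m, {z : Q → ℝ | i ≠ i₀ → z (t i) = g a (t i)}) := by
        ext z
        simp [hK]
      rw [e]
      apply hcl.inter
      apply Metric.isClosed_closedBall.inter
      apply isClosed_iInter
      intro i
      by_cases hi : i = i₀
      · have : {z : Q → ℝ | i ≠ i₀ → z (t i) = g a (t i)} = Set.univ := by
          ext z; simp [hi]
        rw [this]
        exact isClosed_univ
      · have : {z : Q → ℝ | i ≠ i₀ → z (t i) = g a (t i)} =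
            {z : Q → ℝ | z (t i) = g a (t i)} := by
          ext z; simp [hi]
        rw [this]
        exact isClosed_eq (continuous_apply _) continuous_const
    · intro z hz
      exact hz.2.1
  have hKn : K.Nonempty := ⟨g a, ⟨a, rfl⟩, hab, fun _ _ => rfl⟩
  obtain ⟨z, hzK, hzmax⟩ := hKc.exists_isMaxOn hKn
    (continuous_apply (t i₀) : Continuous fun z : Q → ℝ => z (t i₀)).continuousOn
  obtain ⟨⟨c, rfl⟩, hc1, hc2⟩ := hzK
  refine ⟨c, ?_, hc2⟩
  by_contra hcon
  have hlt : dist (g c) (g b) < 1 := lt_of_le_of_ne hc1 hcon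
  by_cases hpc : p c = m
  · have h0 := hs c
    rw [hpc] at h0
    obtain ⟨δ, hδ, h1⟩ := h0 t ht (1 - dist (g c) (g b)) (by linarith)
    obtain ⟨d, hd1, hd2⟩ := h1 (fun i => if i = i₀ then g c (t i) + δ / 2 else g c (t i)) (by
      intro i
      split_ifs
      · rw [sub_add_cancel_left, abs_neg, abs_of_pos (by linarith)]
        linarith
      · rw [sub_self, abs_zero]
        exact hδ)
    have h3 : dist (g d) (g c) < 1 - dist (g c) (g b) := by
      rw [dist_pi_lt_iff (by linarith)]
      intro q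
      rw [Real.dist_eq]
      exact hd2 q
    have h4 : g d ∈ K := by
      refine ⟨⟨d, rfl⟩, ?_, ?_⟩
      · have := dist_triangle (g d) (g c) (g b)
        linarith
      · intro i hi
        have h5 := hd1 i
        rw [if_neg hi] at h5
        rw [h5, hc2 i hi]
    have h5 : g d (t i₀) ≤ g c (t i₀) := hzmax h4
    have h6 := hd1 i₀
    rw [if_pos rfl] at h6
    linarith
  · have hlt2 : p c < m := lt_of_le_of_ne (hmax c) hpc
    have hac : a ≠ c := by
      intro h
      rw [h] at ha
      exact hpc ha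
    exact agree ht i₀ hz c a hac (hpos c) hlt2 hc2

end proof

/-- Rice's question: if `g` is varisolvent on a finite set `Q` and its surface
`G = {g a : a}` is connected, then `G` is not a closed subset of `Q → ℝ`. -/
theorem result {A Q : Type*} [Finite Q] (g : A → Q → ℝ) (hg : Varisolvent g)
    (hconn : IsConnected (Set.range g)) : ¬ IsClosed (Set.range g) := by
  classical
  intro hcl
  have := Fintype.ofFinite Q
  obtain ⟨p, ⟨a₁, a₂, hne⟩, hp, hs, hz⟩ := hg
  have : Nonempty A := ⟨a₁⟩
  -- the maximal degree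
  obtain ⟨a₀, ha₀⟩ : ∃ a₀ : A, ∀ a, p a ≤ p a₀ := by
    refine ⟨Function.argmin (fun a => Nat.card Q - p a), ?_⟩
    intro a
    have h1 := Function.argmin_le (fun a => Nat.card Q - p a) a
    have h2 := (hp a).2
    have h3 := (hp (Function.argmin (fun a => Nat.card Q - p a))).2
    omega
  set m := p a₀ with hm
  have hpos : ∀ a, 1 ≤ p a := fun a => (hp a).1
  have hmQ : m ≤ Fintype.card Q := by
    rw [← Nat.card_eq_fintype_card]
    exact (hp a₀).2
  obtain ⟨t⟩ : Nonempty (Fin m ↪ Q) := by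
    rw [Function.Embedding.nonempty_iff_card_le, Fintype.card_fin]
    exact hmQ
  have ht : Function.Injective t := t.injective
  set i₀ : Fin m := ⟨0, hpos a₀⟩
  -- a limit of members of degree `m` of smaller degree
  obtain ⟨b, hb, hlim⟩ : ∃ b : A, p b < m ∧ ∀ r : ℝ, 0 < r → ∃ a : A, p a = m ∧
      dist (g a) (g b) < r := by
    by_contra hcon
    push Not at hcon
    have h1 := fun a (ha : p a = m) => open_max ht i₀ hpos ha₀ hs hz a ha
    choose δ hδ1 hδ2 using h1
    choose r hr1 hr2 using hcon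
    obtain ⟨x, hx, hxu, hxv⟩ := hconn.isPreconnected
      (⋃ (a : A) (ha : p a = m), Metric.ball (g a) (δ a ha))
      (⋃ (a : A) (ha : p a < m), Metric.ball (g a) (r a ha))
      (isOpen_iUnion fun a => isOpen_iUnion fun ha => Metric.isOpen_ball)
      (isOpen_iUnion fun a => isOpen_iUnion fun ha => Metric.isOpen_ball)
      (by
        rintro _ ⟨a, rfl⟩
        by_cases ha : p a = m
        · left
          simp only [Set.mem_iUnion]
          exact ⟨a, ha, Metric.mem_ball_self (hδ1 a ha)⟩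
        · right
          simp only [Set.mem_iUnion]
          have ha' : p a < m := lt_of_le_of_ne (ha₀ a) ha
          exact ⟨a, ha', Metric.mem_ball_self (hr1 a ha')⟩)
      (by
        refine ⟨g a₀, ⟨a₀, rfl⟩, ?_⟩
        simp only [Set.mem_iUnion]
        exact ⟨a₀, rfl, Metric.mem_ball_self (hδ1 a₀ rfl)⟩)
      (by
        obtain ⟨a, ha⟩ : ∃ a, p a < m := by
          by_contra hc
          push Not at hc
          exact hne (by
            rw [le_antisymm (ha₀ a₁) (hc a₁), le_antisymm (ha₀ a₂) (hc a₂)])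
        refine ⟨g a, ⟨a, rfl⟩, ?_⟩
        simp only [Set.mem_iUnion]
        exact ⟨a, ha, Metric.mem_ball_self (hr1 a ha)⟩)
    obtain ⟨c, rfl⟩ := hx
    simp only [Set.mem_iUnion] at hxu hxv
    obtain ⟨a, ha, hca⟩ := hxu
    obtain ⟨b, hb, hcb⟩ := hxv
    have h2 : p c = m := hδ2 a ha c (by rwa [Metric.mem_ball] at hca)
    have h3 := hr2 b hb c h2
    rw [Metric.mem_ball] at hcb
    linarith
  -- a member at distance one from `g b` that agrees with it at `m - 1` points
  set S : Set (Q → ℝ) := Set.range g ∩ Metric.sphere (g b) 1 with hS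
  have hSc : IsCompact S := (isCompact_sphere (g b) 1).inter_left hcl
  have hcont : Continuous fun z : Q → ℝ =>
      dist (fun i : {i : Fin m // i ≠ i₀} => z (t i)) (fun i => g b (t i)) := by
    apply Continuous.dist _ continuous_const
    exact continuous_pi fun i => continuous_apply _
  have hkey : ∀ r : ℝ, 0 < r → ∃ z ∈ S,
      dist (fun i : {i : Fin m // i ≠ i₀} => z (t i)) (fun i => g b (t i)) < r := by
    intro r hr
    obtain ⟨a, ha, had⟩ := hlim (min r 1) (lt_min hr one_pos)
    obtain ⟨c, hc1, hc2⟩ := reach ht i₀ hpos ha₀ hs hz hcl b a ha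
      (le_trans had.le (min_le_right _ _))
    refine ⟨g c, ⟨⟨c, rfl⟩, hc1⟩, ?_⟩
    rw [dist_pi_lt_iff hr]
    intro i
    rw [hc2 i.1 i.2]
    exact lt_of_le_of_lt (dist_le_pi_dist (g a) (g b) (t i)) (lt_of_lt_of_le had (min_le_left _ _))
  obtain ⟨z₁, hz₁, _⟩ := hkey 1 one_pos
  obtain ⟨z, hzS, hzmin⟩ := hSc.exists_isMinOn ⟨z₁, hz₁⟩ hcont.continuousOn
  have hz0 : dist (fun i : {i : Fin m // i ≠ i₀} => z (t i)) (fun i => g b (t i)) = 0 := by
    by_contra hcon
    have h1 : 0 < dist (fun i : {i : Fin m // i ≠ i₀} => z (t i)) (fun i => g b (t i)) :=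
      lt_of_le_of_ne dist_nonneg (Ne.symm hcon)
    obtain ⟨z', hz'S, hz'⟩ := hkey _ h1
    have h2 := hzmin hz'S
    simp only [Set.mem_ofPred_eq] at h2
    linarith
  obtain ⟨⟨c, rfl⟩, hc⟩ := hzS
  rw [mem_sphere_iff_norm, ← dist_eq_norm] at hc
  have hcb : c ≠ b := by
    intro h
    rw [h, dist_self] at hc
    exact one_ne_zero hc.symm
  apply agree ht i₀ hz b c hcb (hpos b) hb
  intro i hi
  rw [dist_eq_zero] at hz0
  have := congrFun hz0 ⟨i, hi⟩
  exact this.symm

end Pool.Agent.Results.MP_850d3d_an.NotClosed
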